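import Pool.Agent.Helper5.FRD.Goals

/-!
# FRD, packet ARCF
-/

set_option autoImplicit false

namespace Pool.Agent.Helper46.FRD.ARCF

open Finset
open Pool.Agent.Helper5.FRC
open Pool.Agent.Helper5.FRD

theorem t (h1 : Pool.Agent.Helper5.FRD.ArcqStmt) (h2 : Pool.Agent.Helper5.FRD.PmfStmt) :
    Pool.Agent.Helper5.FRD.ArcfStmt := by
  intro V _ _ n A t C Z hF p hp z hz hpz a b hab hb e U₁ U₂ L i hi he hU₁ hU₂ hL
  have hF' := hF
  obtain ⟨hn, hPt, hBl, hC, hCo, hCd, hZ, hZe, hCZ, hA⟩ := hF'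
  obtain ⟨-, hq⟩ := h1 V n Z p hZ hZe hp z hz hpz
  obtain ⟨q, q1, q2, q3, q4⟩ := hq a b hab hb
  obtain ⟨u1a, u1c, u1x, u1e⟩ := hU₁
  obtain ⟨u2a, u2c, u2x, u2e⟩ := hU₂
  obtain ⟨la, lc, lx, le⟩ := hL
  have hYA : U₁ ∪ U₂ ∪ L ⊆ A := Finset.union_subset (Finset.union_subset u1a u2a) la
  have hs1 : (n ^ (2 * a)) z ∈ U₁ := by
    have : (n ^ (2 * a)) z ∈ U₁ ∩ Arc n z a b := by rw [u1x]; exact Finset.mem_singleton_self _
    exact (Finset.mem_inter.1 this).1
  have hs2 : (n ^ (2 * b + 1)) z ∈ U₂ := by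
    have : (n ^ (2 * b + 1)) z ∈ U₂ ∩ Arc n z a b := by
      rw [u2x]; exact Finset.mem_singleton_self _
    exact (Finset.mem_inter.1 this).1
  have hY1 : (n ^ (2 * a)) z ∈ U₁ ∪ U₂ ∪ L :=
    Finset.mem_union_left _ (Finset.mem_union_left _ hs1)
  have hY2 : (n ^ (2 * b + 1)) z ∈ U₁ ∪ U₂ ∪ L :=
    Finset.mem_union_left _ (Finset.mem_union_right _ hs2)
  -- closed under `t`
  have hYt : ∀ v ∈ U₁ ∪ U₂ ∪ L, t v ∈ U₁ ∪ U₂ ∪ L := by
    intro v hv
    rcases Finset.mem_union.1 hv with hv | hv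
    · rcases Finset.mem_union.1 hv with hv | hv
      · exact Finset.mem_union_left _ (Finset.mem_union_left _ (u1c v hv).1)
      · exact Finset.mem_union_left _ (Finset.mem_union_right _ (u2c v hv).1)
    · exact Finset.mem_union_right _ (lc v hv).1
  -- closed under `q`
  have hYq : ∀ v ∈ U₁ ∪ U₂ ∪ L, v ∈ Z → q v ∈ U₁ ∪ U₂ ∪ L := by
    intro v hv hvZ
    by_cases hX : v ∈ Arc n z a b
    · have hv' : v = (n ^ (2 * a)) z ∨ v = (n ^ (2 * b + 1)) z := by
        rcases Finset.mem_union.1 hv with hv | hv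
        · rcases Finset.mem_union.1 hv with hv | hv
          · left
            have : v ∈ U₁ ∩ Arc n z a b := Finset.mem_inter.2 ⟨hv, hX⟩
            rw [u1x] at this
            exact Finset.mem_singleton.1 this
          · right
            have : v ∈ U₂ ∩ Arc n z a b := Finset.mem_inter.2 ⟨hv, hX⟩
            rw [u2x] at this
            exact Finset.mem_singleton.1 this
        · exfalso
          have : v ∈ L ∩ Arc n z a b := Finset.mem_inter.2 ⟨hv, hX⟩
          rw [lx] at this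
          exact absurd this (Finset.notMem_empty _)
      rcases hv' with rfl | rfl
      · rcases q3 with ⟨h, -⟩ | ⟨h, -⟩
        · rw [h]; exact hY1
        · rw [h]; exact hY2
      · rcases q3 with ⟨-, h⟩ | ⟨-, h⟩
        · rw [h]; exact hY2
        · rw [h]; exact hY1
    · rw [q4 v hvZ hX]
      rcases Finset.mem_union.1 hv with hv | hv
      · rcases Finset.mem_union.1 hv with hv | hv
        · exact Finset.mem_union_left _ (Finset.mem_union_left _ ((u1c v hv).2 hvZ hX))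
        · exact Finset.mem_union_left _ (Finset.mem_union_right _ ((u2c v hv).2 hvZ hX))
      · exact Finset.mem_union_right _ ((lc v hv).2 hvZ hX)
  -- the ends
  have e0 : e 0 ∈ U₁ ∧ e 0 ∉ Z := by
    have : e 0 ∈ U₁ \ Z := by rw [u1e]; exact Finset.mem_singleton_self _
    exact Finset.mem_sdiff.1 this
  have e1 : e 1 ∈ U₂ ∧ e 1 ∉ Z := by
    have : e 1 ∈ U₂ \ Z := by rw [u2e]; exact Finset.mem_singleton_self _
    exact Finset.mem_sdiff.1 this
  have e2 : e 2 ∈ L ∧ e 2 ∉ Z := by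
    have : e 2 ∈ L \ Z := by rw [le]; simp
    exact Finset.mem_sdiff.1 this
  have e3 : e 3 ∈ L ∧ e 3 ∉ Z := by
    have : e 3 ∈ L \ Z := by rw [le]; simp
    exact Finset.mem_sdiff.1 this
  have heY : ∀ k, e k ∈ U₁ ∪ U₂ ∪ L := by
    intro k
    fin_cases k
    · exact Finset.mem_union_left _ (Finset.mem_union_left _ e0.1)
    · exact Finset.mem_union_left _ (Finset.mem_union_right _ e1.1)
    · exact Finset.mem_union_right _ e2.1
    · exact Finset.mem_union_right _ e3.1
  have hYe : ∀ v ∈ U₁ ∪ U₂ ∪ L, v ∉ Z → ∃ k, v = e k := by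
    intro v hv hvZ
    rcases Finset.mem_union.1 hv with hv | hv
    · rcases Finset.mem_union.1 hv with hv | hv
      · refine ⟨0, ?_⟩
        have : v ∈ U₁ \ Z := Finset.mem_sdiff.2 ⟨hv, hvZ⟩
        rw [u1e] at this
        exact Finset.mem_singleton.1 this
      · refine ⟨1, ?_⟩
        have : v ∈ U₂ \ Z := Finset.mem_sdiff.2 ⟨hv, hvZ⟩
        rw [u2e] at this
        exact Finset.mem_singleton.1 this
    · have : v ∈ L \ Z := Finset.mem_sdiff.2 ⟨hv, hvZ⟩
      rw [le] at this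
      rcases Finset.mem_insert.1 this with h | h
      · exact ⟨2, h⟩
      · exact ⟨3, Finset.mem_singleton.1 h⟩
  have hHalf : Half n Z t q (U₁ ∪ U₂ ∪ L) := by
    refine ⟨q1, ?_, ?_, ?_⟩
    · intro v hv hqv
      obtain ⟨h, h'⟩ := q2 v hv hqv
      refine ⟨?_, h'⟩
      rcases h with rfl | rfl
      · exact hY1
      · exact hY2
    · unfold fx
      calc (Z.filter fun v => q v = v).card
          ≤ ({(n ^ (2 * a)) z, (n ^ (2 * b + 1)) z} : Finset V).card := by
            apply Finset.card_le_card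
            intro v hv
            obtain ⟨hv, hqv⟩ := Finset.mem_filter.1 hv
            rcases (q2 v hv hqv).1 with h | h
            · rw [h]; simp
            · rw [h]; simp
        _ ≤ 2 := Finset.card_le_two
    · intro v hv
      exact ⟨hYt v hv, fun hvZ => hYq v hv hvZ⟩
  refine h2 V n A t C Z hF q (U₁ ∪ U₂ ∪ L) hYA hHalf ?_
  intro j
  obtain ⟨k, rfl⟩ := (Finite.injective_iff_surjective.1 hi) j
  have hS : (U₁ ∪ U₂ ∪ L) ∩ C (i k) = {e k} := by
    apply Finset.Subset.antisymm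
    · intro v hv
      obtain ⟨hvY, hvC⟩ := Finset.mem_inter.1 hv
      have hvZ : v ∉ Z := Finset.disjoint_left.1 (hCZ (i k)) hvC
      obtain ⟨k', rfl⟩ := hYe v hvY hvZ
      have : i k' = i k := by
        by_contra hne
        exact Finset.disjoint_left.1 (hCd _ _ hne) (he k') hvC
      rw [hi this]
      exact Finset.mem_singleton_self _
    · intro v hv
      rw [Finset.mem_singleton.1 hv]
      exact Finset.mem_inter.2 ⟨heY k, he k⟩
  refine ⟨e k, hS, ?_⟩
  intro htC
  have : t (e k) ∈ (U₁ ∪ U₂ ∪ L) ∩ C (i k) := Finset.mem_inter.2 ⟨hYt _ (heY k), htC⟩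
  rw [hS] at this
  exact (hPt (e k) (hYA (heY k))).2.2 (Finset.mem_singleton.1 this)

end Pool.Agent.Helper46.FRD.ARCF
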